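import Mathlib
import Pool.Agent.Helper292.ForceCH
import Pool.Agent.Helper901.GrothFinal

/-!
# MP_9ba03c_gt: first countable Grothendieck spaces whose sum is not Grothendieck

The continuum hypothesis (which some forcing notion forces over any ground model) implies that there
are first countable Grothendieck spaces `X`, `Y` such that `X ⊕ Y` is not Grothendieck, and separable
compact sets `K`, `L` of continuous functions on them such that `K × L` is not Fréchet-Urysohn.
-/

set_option autoImplicit false

open Cardinal Set Topology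
open Pool.Agent.Helper292.ForceCH (OmegaOnePreserved CHHolds)
open Pool.Agent.Helper901.Groth

namespace Pool.Agent.Results.MP_9ba03c_gt.SumFails

/-- The compact set of functions is separable. -/
theorem separable_Kc (A : Set (Set ℕ)) : TopologicalSpace.SeparableSpace (Kc A) := by
  refine ⟨range (fun n => (⟨ev A n, ev_mem_Kc n⟩ : Kc A)), countable_range _, ?_⟩
  have hind : IsInducing (fun f : Kc A => f.1.1) :=
    (IsInducing.subtypeVal (t := fun f : Sp A → ℝ => Continuous f)).comp IsInducing.subtypeVal
  intro f
  rw [hind.closure_eq_preimage_closure_image, mem_preimage, ← range_comp]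
  exact f.2

/-- Some forcing notion forces the continuum hypothesis (and preserves `ω₁`) over any ground model;
and the continuum hypothesis gives first countable Tychonoff Grothendieck spaces `X`, `Y` whose
topological sum is not Grothendieck, and separable compact `K ⊆ C_p(X)`, `L ⊆ C_p(Y)` such that
`K × L` is not Fréchet-Urysohn. -/
theorem result :
    (∃ (P : Type) (_ : Preorder P), Nonempty P ∧
      ∀ p : P, p ∈ OmegaOnePreserved P ∧ p ∈ CHHolds P) ∧
    ((ℵ₁ : Cardinal.{0}) = 𝔠 →
      ∃ (X Y : Type) (_ : TopologicalSpace X) (_ : TopologicalSpace Y),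
        T35Space X ∧ T35Space Y ∧ FirstCountableTopology X ∧ FirstCountableTopology Y ∧
        Grothendieck X ∧ Grothendieck Y ∧ ¬ Grothendieck (X ⊕ Y) ∧
        ∃ (K : Set (Cp X)) (L : Set (Cp Y)), IsCompact K ∧ IsCompact L ∧
          TopologicalSpace.SeparableSpace K ∧ TopologicalSpace.SeparableSpace L ∧
          ¬ FrechetUrysohnSpace (K × L)) := by
  refine ⟨?_, fun hCH => ?_⟩
  · obtain ⟨P, hP, hne, h⟩ := Pool.Agent.Helper292.ForceCH.exists_forcing
    exact ⟨P, hP, hne, fun p => ⟨(h p).1, (h p).2.2⟩⟩
  · obtain ⟨A₀, A₁, h⟩ := exists_fam hCH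
    exact ⟨Sp A₀, Sp A₁, inferInstance, inferInstance, t35 h.inf₀, t35 h.inf₁,
      firstCountable, firstCountable,
      grothendieck_sp h.gap₀ h.seq₀, grothendieck_sp h.gap₁ h.seq₁, h.not_grothendieck,
      Kc A₀, Kc A₁, isCompact_Kc h.inf₀ h.ad₀, isCompact_Kc h.inf₁ h.ad₁,
      separable_Kc A₀, separable_Kc A₁, h.not_frechet⟩

end Pool.Agent.Results.MP_9ba03c_gt.SumFails
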